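import Pool.Agent.R84.InvCommon
import Pool.Agent.R84.Tiles

/-!
# The inverse Turan number of paths of even length

For every `t ≥ 2` one has `ex⁻¹(k, P_{2t}) = k² / (2t(t-1)) + o(k²)`.

Upper bound: let `ex(G, P_{2t}) < k`. Spanning star forests show that `G` has less than `2k`
non-isolated vertices. Let `W` be the set of the vertices of degree at least `γ k`, and choose
`S ⊆ W` such that `t e(S)/|S| - (t-1)|S|/2` is as large as possible. Then the minimum degree inside
`S` is at least `(1-1/t)(|S|-1/2)`, and a partition of `S` into cliques with at most `t` vertices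
maximising the sum of the squares of the sizes leaves a bounded number of vertices outside the cliques
with `t` vertices. Pairs of these cliques are joined by their edges to sets of `2t` vertices; some
pairing contains the average number of edges. Almost all vertices of `W \ S` are joined to
constantly many pairwise disjoint sets of `t-1` hubs. Together this subgraph contains no path with
`2t` edges and has at least `(t-1)|W|/2 + t e(W)/|W| - o(k)` edges, and the inequality between the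
arithmetic and the geometric mean yields the bound.
Lower bound: Turan graphs and the theorem of Erdos and Gallai.
-/

set_option autoImplicit false

namespace Pool.Agent.Results.MP_69c6fe_co.EvenPaths

open Finset SimpleGraph Asymptotics Filter
open Pool.Agent.R84.EG Pool.Agent.R84.Inv Pool.Agent.R84.Hubs Pool.Agent.R84.InvCommon
open Pool.Agent.R84.Tiling Pool.Agent.R84.Tiles

section

variable {V : Type} [Fintype V] [DecidableEq V] (G : SimpleGraph V) [DecidableRel G.Adj]

/-- Splitting the edges by the degrees. -/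
theorem edges_le' (d : ℝ) (hd : 0 ≤ d) :
    2 * (G.edgeSet.ncard : ℝ) ≤ (E G (big G d) : ℝ) + 2 * ((supp G).card * d) := by
  classical
  have h2 : G.edgeSet.ncard = #G.edgeFinset := by
    rw [← coe_edgeFinset, Set.ncard_coe_finset]
  have h3 : 2 * (G.edgeSet.ncard : ℝ) = ∑ v, (G.degree v : ℝ) := by
    rw [h2]
    exact_mod_cast G.sum_degrees_eq_twice_card_edges.symm
  rw [h3]
  obtain ⟨W, hW⟩ : ∃ W, W = big G d := ⟨_, rfl⟩
  rw [← hW]
  have hWmem : ∀ v, v ∈ W ↔ v ∈ supp G ∧ d ≤ (G.degree v : ℝ) := by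
    intro v
    rw [hW, big, mem_filter]
  have h4 : ∑ v, (G.degree v : ℝ) = ∑ v ∈ supp G, (G.degree v : ℝ) := by
    rw [← Finset.sum_subset (subset_univ (supp G))]
    intro v _ hv
    rw [mem_supp] at hv
    have : G.degree v = 0 := by
      by_contra h
      exact hv ((G.degree_pos_iff_exists_adj v).1 (Nat.pos_of_ne_zero h))
    simp [this]
  have hWsub : W ⊆ supp G := fun v hv => ((hWmem v).1 hv).1
  rw [h4, ← Finset.sum_sdiff hWsub]
  -- low part
  have h5 : ∑ v ∈ supp G \ W, (G.degree v : ℝ) ≤ (supp G).card * d := by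
    calc ∑ v ∈ supp G \ W, (G.degree v : ℝ) ≤ ∑ v ∈ supp G \ W, d := by
          refine Finset.sum_le_sum fun v hv => ?_
          rw [Finset.mem_sdiff, hWmem] at hv
          by_contra h
          exact hv.2 ⟨hv.1, (not_le.1 h).le⟩
      _ = ((supp G \ W).card : ℝ) * d := by rw [sum_const, nsmul_eq_mul]
      _ ≤ (supp G).card * d := by
          apply mul_le_mul_of_nonneg_right _ hd
          exact_mod_cast card_le_card sdiff_subset
  -- high part
  have h6 : ∀ v ∈ W, (G.degree v : ℝ) ≤ (nb G W v).card +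
      ((supp G \ W).filter (G.Adj v)).card := by
    intro v _
    rw [← card_neighborFinset_eq_degree]
    have : G.neighborFinset v ⊆ nb G W v ∪ (supp G \ W).filter (G.Adj v) := by
      intro y hy
      rw [mem_neighborFinset] at hy
      by_cases h : y ∈ W
      · exact mem_union_left _ (mem_filter.2 ⟨h, hy⟩)
      · exact mem_union_right _ (mem_filter.2 ⟨Finset.mem_sdiff.2 ⟨mem_supp.2 ⟨v, hy.symm⟩, h⟩, hy⟩)
    exact_mod_cast (card_le_card this).trans (card_union_le _ _)
  have h7 : ∑ v ∈ W, (((supp G \ W).filter (G.Adj v)).card : ℝ) ≤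
      ∑ v ∈ supp G \ W, (G.degree v : ℝ) := by
    have h8 : ∑ v ∈ W, ((supp G \ W).filter (G.Adj v)).card =
        ∑ y ∈ supp G \ W, (W.filter fun v => G.Adj v y).card := by
      simp_rw [card_filter]
      exact sum_comm
    have h9 : ∑ y ∈ supp G \ W, (W.filter fun v => G.Adj v y).card ≤
        ∑ y ∈ supp G \ W, G.degree y := by
      refine Finset.sum_le_sum fun y _ => ?_
      rw [← card_neighborFinset_eq_degree]
      apply card_le_card
      intro v hv
      rw [mem_neighborFinset]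
      exact (mem_filter.1 hv).2.symm
    exact_mod_cast h8.le.trans h9
  have h10 : ∑ v ∈ W, (G.degree v : ℝ) ≤ (E G W : ℝ) + (supp G).card * d := by
    calc ∑ v ∈ W, (G.degree v : ℝ)
        ≤ ∑ v ∈ W, (((nb G W v).card : ℝ) + ((supp G \ W).filter (G.Adj v)).card) :=
          Finset.sum_le_sum h6
      _ = (E G W : ℝ) + ∑ v ∈ W, (((supp G \ W).filter (G.Adj v)).card : ℝ) := by
          rw [sum_add_distrib]
          unfold E
          push_cast
          rfl
      _ ≤ _ := by linarith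
  linarith

omit [Fintype V] [DecidableEq V] in
theorem E_le_sq (S : Finset V) : E G S ≤ S.card * S.card := by
  unfold E
  rw [← smul_eq_mul]
  exact sum_le_card_nsmul _ _ _ fun v _ => card_le_card (filter_subset _ _)

omit [Fintype V] in
theorem E_diff {S S' : Finset V} (h : S' ⊆ S) :
    E G S ≤ E G S' + 2 * ((S \ S').card * S.card) := by
  unfold E
  rw [← Finset.sum_sdiff h]
  have h1 : ∑ v ∈ S \ S', (nb G S v).card ≤ (S \ S').card * S.card := by
    rw [← smul_eq_mul]
    exact sum_le_card_nsmul _ _ _ fun v _ => card_le_card (filter_subset _ _)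
  have h2 : ∑ v ∈ S', (nb G S v).card ≤ ∑ v ∈ S', (nb G S' v).card + S'.card * (S \ S').card := by
    rw [← smul_eq_mul, ← sum_const, ← sum_add_distrib]
    refine Finset.sum_le_sum fun v _ => ?_
    have : nb G S v ⊆ nb G S' v ∪ (S \ S') := by
      intro y hy
      simp only [nb, mem_filter] at hy
      by_cases h : y ∈ S'
      · exact mem_union_left _ (mem_filter.2 ⟨h, hy.2⟩)
      · exact mem_union_right _ (Finset.mem_sdiff.2 ⟨hy.1, h⟩)
    exact (card_le_card this).trans (card_union_le _ _)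
  have h3 : S'.card * (S \ S').card ≤ (S \ S').card * S.card := by
    rw [mul_comm]
    exact Nat.mul_le_mul_left _ (card_le_card h)
  omega

/-- the potential of a set of vertices -/
noncomputable def pt (t : ℕ) (S : Finset V) : ℝ :=
  t * E G S / (2 * S.card) - (t - 1) * S.card / 2

omit [Fintype V] in
theorem exists_dense (t : ℕ) (ht : 2 ≤ t) (W : Finset V) :
    ∃ S ⊆ W, pt G t W ≤ pt G t S ∧
      ∀ v ∈ S, 2 * t * (S.filter fun y => ¬ G.Adj v y).card ≤ 2 * S.card + t := by
  classical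
  obtain ⟨S, hS, hmax⟩ := exists_max_image W.powerset (pt G t) ⟨∅, by simp⟩
  rw [mem_powerset] at hS
  refine ⟨S, hS, hmax W (mem_powerset_self W), fun v hv => ?_⟩
  have ht' : (2 : ℝ) ≤ t := by exact_mod_cast ht
  have h0 : 0 ≤ pt G t S := by
    have h1 := hmax ∅ (empty_mem_powerset W)
    have h2 : pt G t (∅ : Finset V) = 0 := by simp [pt]
    linarith
  have h1 := hmax (S.erase v) (mem_powerset.2 ((erase_subset _ _).trans hS))
  have hE := E_mono_erase G hv
  obtain ⟨d, hd⟩ : ∃ d, d = (nb G S v).card := ⟨_, rfl⟩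
  obtain ⟨e, he⟩ : ∃ e, e = E G (S.erase v) := ⟨_, rfl⟩
  obtain ⟨s, hs⟩ : ∃ s, s = (S.erase v).card := ⟨_, rfl⟩
  have hs1 : S.card = s + 1 := by rw [hs, card_erase_add_one hv]
  rw [← he, ← hd] at hE
  have hnon : (S.filter fun y => ¬ G.Adj v y).card + d = s + 1 := by
    rw [← hs1, hd, add_comm]
    unfold nb
    exact card_filter_add_card_filter_not _
  unfold pt at h0 h1
  rw [hE, hs1] at h0 h1
  rw [← he, ← hs] at h1
  -- `s ≥ 1`
  have hs0 : 1 ≤ s := by
    by_contra hcon
    have hs2 : s = 0 := by omega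
    have h2 := E_le_sq G S
    rw [hs1, hs2] at h2
    have h3 : E G S = 0 := by
      rw [E_mono_erase G hv, ← he, ← hd]
      have h4 : d ≤ (S.erase v).card := by
        rw [hd]
        apply card_le_card
        intro y hy
        simp only [nb, mem_filter] at hy
        exact mem_erase.2 ⟨hy.2.ne', hy.1⟩
      rw [← hs] at h4
      have h5 : e ≤ s * s := by
        rw [he, hs]
        exact E_le_sq G _
      rw [hs2] at h5
      omega
    rw [hE] at h3
    rw [h3, hs2] at h0
    norm_num at h0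
    linarith
  have hsr : (1 : ℝ) ≤ s := by exact_mod_cast hs0
  have hgoal : (t - 1) * (2 * (s : ℝ) + 1) ≤ 2 * t * d := by
    push_cast at h0 h1
    have h2 : (t - 1) * ((s : ℝ) + 1) ^ 2 ≤ t * (e + 2 * d) := by
      rw [sub_nonneg, div_le_div_iff₀ (by norm_num) (by positivity)] at h0
      nlinarith
    have h3 : t * (e : ℝ) / (2 * s) - t * (e + 2 * d) / (2 * (s + 1)) ≤ - (t - 1) / 2 := by
      linarith
    have h4 : t * (e : ℝ) / (2 * s) - t * (e + 2 * d) / (2 * (s + 1)) =
        (t * (e + 2 * d) - 2 * t * d * (s + 1)) / (2 * s * (s + 1)) := by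
      field_simp
      ring
    rw [h4, div_le_div_iff₀ (by positivity) (by norm_num)] at h3
    have h5 : ((t - 1) * (2 * (s : ℝ) + 1)) * (s + 1) ≤ (2 * t * d) * (s + 1) := by nlinarith
    exact le_of_mul_le_mul_right h5 (by linarith)
  have hnon' : ((S.filter fun y => ¬ G.Adj v y).card : ℝ) + d = s + 1 := by exact_mod_cast hnon
  have hfin : (2 * t * ((S.filter fun y => ¬ G.Adj v y).card : ℝ)) ≤ 2 * (s + 1) + t := by
    have : ((S.filter fun y => ¬ G.Adj v y).card : ℝ) = s + 1 - d := by linarith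
    rw [this]
    nlinarith
  rw [hs1]
  exact_mod_cast hfin

/-- the subgraph -/
theorem main_ineq (t : ℕ) (ht : 2 ≤ t) (W S : Finset V) (s : ℕ)
    (hs : HubSys G (t - 1) (W \ S) ∅ s)
    (hdeg : ∀ v ∈ S, 2 * t * (S.filter fun y => ¬ G.Adj v y).card ≤ 2 * S.card + t)
    (C₁ : ℝ) (hC₁ : C₁ = t * (t + 1) ^ t + t * (s * (t - 1))) :
    (t - 1) * (hs.A.card : ℝ) + ((t - 1) * S.card + t * E G S / S.card -
      ((t - 1) * (C₁ + t) + 2 * t * C₁)) / 2 ≤ exIn G (pathGraph (2 * t + 1)) := by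
  classical
  have ht' : (2 : ℝ) ≤ t := by exact_mod_cast ht
  obtain ⟨c, hcl, hsz, hleft⟩ := exists_tiling G t (by omega) S hdeg
  obtain ⟨Hb, hHb⟩ : ∃ Hb, Hb = hs.A.biUnion hs.hub := ⟨_, rfl⟩
  have hHbcard : Hb.card ≤ s * (t - 1) := by rw [hHb]; exact hs.total
  obtain ⟨T, hT⟩ : ∃ T, T = (univ.filter fun a => (S.filter fun x => c x = a).card = t) \
    Hb.image c := ⟨_, rfl⟩
  have hTmem : ∀ a, a ∈ T ↔ (S.filter fun x => c x = a).card = t ∧ a ∉ Hb.image c := by
    intro a
    rw [hT, Finset.mem_sdiff, mem_filter]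
    simp
  obtain ⟨S', hS'⟩ : ∃ S', S' = S.filter fun x => c x ∈ T := ⟨_, rfl⟩
  have hS'mem : ∀ x, x ∈ S' ↔ x ∈ S ∧ c x ∈ T := by
    intro x
    rw [hS', mem_filter]
  have hS'S : S' ⊆ S := fun x hx => ((hS'mem x).1 hx).1
  have hfib : ∀ a ∈ T, (S'.filter fun x => c x = a) = S.filter fun x => c x = a := by
    intro a ha
    ext x
    rw [mem_filter, mem_filter, hS'mem]
    constructor
    · rintro ⟨⟨h1, _⟩, h2⟩
      exact ⟨h1, h2⟩
    · rintro ⟨h1, h2⟩
      exact ⟨⟨h1, h2 ▸ ha⟩, h2⟩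
  have hS'card : S'.card = t * T.card := by
    rw [card_eq_sum_card_fiberwise (f := c) (t := T) (fun x hx => ((hS'mem x).1 hx).2)]
    rw [Finset.sum_congr rfl fun a ha => by rw [hfib a ha, ((hTmem a).1 ha).1], sum_const,
      smul_eq_mul, mul_comm]
  -- few vertices are lost
  have hlost : (S \ S').card ≤ t * (t + 1) ^ t + t * (s * (t - 1)) := by
    have h1 : S \ S' ⊆ (S.filter fun x => (S.filter fun y => c y = c x).card < t) ∪
        (Hb.image c).biUnion fun a => S.filter fun x => c x = a := by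
      intro x hx
      rw [Finset.mem_sdiff, hS'mem, hTmem] at hx
      by_cases h2 : (S.filter fun y => c y = c x).card < t
      · exact mem_union_left _ (mem_filter.2 ⟨hx.1, h2⟩)
      · apply mem_union_right
        have h3 : (S.filter fun y => c y = c x).card = t := le_antisymm (hsz _) (not_lt.1 h2)
        have h4 : c x ∈ Hb.image c := by
          by_contra h5
          exact hx.2 ⟨hx.1, h3, h5⟩
        exact mem_biUnion.2 ⟨c x, h4, mem_filter.2 ⟨hx.1, rfl⟩⟩
    refine (card_le_card h1).trans ((card_union_le _ _).trans (Nat.add_le_add hleft ?_))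
    have h2 : ((Hb.image c).biUnion fun a => S.filter fun x => c x = a).card ≤
        (Hb.image c).card * t := card_biUnion_le_card_mul _ _ _ fun a _ => hsz a
    refine h2.trans ?_
    rw [mul_comm]
    exact Nat.mul_le_mul_left t (card_image_le.trans hHbcard)
  obtain ⟨C, hC⟩ : ∃ C, C = t * (t + 1) ^ t + t * (s * (t - 1)) := ⟨_, rfl⟩
  rw [← hC] at hlost
  have hCC : C₁ = C := by
    rw [hC₁, hC, Nat.cast_add, Nat.cast_mul, Nat.cast_mul, Nat.cast_mul, Nat.cast_sub (by omega)]
    push_cast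
    ring
  have hScard : S.card ≤ S'.card + C := by
    have := card_sdiff_add_card_eq_card hS'S
    omega
  have hES : E G S ≤ E G S' + 2 * (C * S.card) := by
    refine (E_diff G hS'S).trans ?_
    have := Nat.mul_le_mul_right S.card hlost
    omega
  have hA : ∀ x ∈ S', x ∉ hs.A := fun x hx h => (Finset.mem_sdiff.1 (hs.sub h)).2 (hS'S hx)
  have hhub : ∀ x ∈ S', ∀ v ∈ hs.A, x ∉ hs.hub v := by
    intro x hx v hv h
    apply ((hTmem _).1 ((hS'mem x).1 hx).2).2
    refine mem_image.2 ⟨x, ?_, rfl⟩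
    rw [hHb]
    exact mem_biUnion.2 ⟨v, hv, h⟩
  have hsz' : ∀ a, (S'.filter fun x => c x = a).card ≤ t := fun a =>
    (card_le_card (filter_subset_filter _ hS'S)).trans (hsz a)
  -- the real numbers
  have hS'r : (S'.card : ℝ) = t * T.card := by exact_mod_cast hS'card
  have hScardr : (S.card : ℝ) ≤ S'.card + C₁ := by rw [hCC]; exact_mod_cast hScard
  have hESr : (E G S : ℝ) ≤ E G S' + 2 * (C₁ * S.card) := by rw [hCC]; exact_mod_cast hES
  have hS'Sr : (S'.card : ℝ) ≤ S.card := by exact_mod_cast card_le_card hS'S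
  have hC0 : 0 ≤ C₁ := by rw [hCC]; positivity
  rcases Nat.eq_zero_or_pos T.card with hT0 | hT0
  · -- no cliques
    have h1 := hs.edges
    have h2 := le_exIn hs.graph_le (hs.graph_free (2 * t + 1) (by omega))
    have h3 : ((t : ℝ) - 1) * hs.A.card ≤ exIn G (pathGraph (2 * t + 1)) := by
      have h4 := h1.trans h2
      have h5 : (((t - 1 : ℕ) : ℝ)) * hs.A.card ≤ exIn G (pathGraph (2 * t + 1)) := by
        exact_mod_cast h4
      rwa [Nat.cast_sub (by omega), Nat.cast_one] at h5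
    rw [hT0, Nat.cast_zero, mul_zero] at hS'r
    rw [hS'r, zero_add] at hScardr
    have h6 : t * (E G S : ℝ) / S.card ≤ t * C₁ := by
      have h7 : (E G S : ℝ) ≤ S.card * S.card := by exact_mod_cast E_le_sq G S
      apply div_le_of_le_mul₀ (by positivity) (by positivity)
      rw [mul_assoc]
      apply mul_le_mul_of_nonneg_left _ (by positivity)
      exact h7.trans (mul_le_mul_of_nonneg_right hScardr (by positivity))
    have h8 : (t - 1) * (S.card : ℝ) ≤ (t - 1) * C₁ := mul_le_mul_of_nonneg_left hScardr (by linarith)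
    have h9 : 0 ≤ (t - 1) * (t : ℝ) := mul_nonneg (by linarith) (by linarith)
    have h10 : 0 ≤ t * C₁ := by positivity
    nlinarith
  · obtain ⟨M, hM⟩ : ∃ M, M = T.card := ⟨_, rfl⟩
    rw [← hM] at hT0 hS'r hS'card
    have : NeZero M := ⟨by omega⟩
    -- labels
    obtain ⟨g, hg⟩ : ∃ g : V → ZMod M, Set.InjOn g T := by
      have h1 : Fintype.card T = Fintype.card (ZMod M) := by
        rw [ZMod.card, Fintype.card_coe, hM]
      let e := Fintype.equivOfCardEq h1
      refine ⟨fun a => if h : a ∈ T then e ⟨a, h⟩ else 0, ?_⟩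
      intro a ha b hb hab
      rw [Finset.mem_coe] at ha hb
      simp only [dif_pos ha, dif_pos hb] at hab
      have := e.injective hab
      exact Subtype.mk.inj this
    obtain ⟨κ, hκ⟩ := tile_count (t := t) G hT0 S' c g
      (fun x hx y hy => hcl x (hS'S hx) y (hS'S hy)) (fun x hx => by
        have h1 := ((hS'mem x).1 hx).2
        rw [hfib _ h1]
        exact ((hTmem _).1 h1).1)
    have h1 := edges_union G hs S' c g κ hA hhub
    have hle : hs.graph ⊔ tile G S' c g κ ≤ G := sup_le hs.graph_le fun x y h => h.1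
    have h2 := le_exIn hle (union_free G (by omega) hs S' T c g hg κ
      (fun x hx => ((hS'mem x).1 hx).2) hsz' hA hhub)
    have h3 := h1.trans h2
    have h3r : ((t : ℝ) - 1) * hs.A.card + (tile G S' c g κ).edgeSet.ncard ≤
        exIn G (pathGraph (2 * t + 1)) := by
      have h5 : (((t - 1 : ℕ) : ℝ)) * hs.A.card + (tile G S' c g κ).edgeSet.ncard ≤
        exIn G (pathGraph (2 * t + 1)) := by exact_mod_cast h3
      rwa [Nat.cast_sub (by omega), Nat.cast_one] at h5
    obtain ⟨τ, hτ⟩ : ∃ τ : ℝ, τ = (tile G S' c g κ).edgeSet.ncard := ⟨_, rfl⟩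
    rw [← hτ] at h3r
    have hκr : (S'.card : ℝ) * ((M - 1) * (t - 1)) + E G S' ≤ M * (2 * τ) := by
      have h5 : ((S'.card * ((M - 1) * (t - 1)) + E G S' : ℕ) : ℝ) ≤
          ((M * (2 * (tile G S' c g κ).edgeSet.ncard) : ℕ) : ℝ) := by exact_mod_cast hκ
      rw [hτ]
      push_cast [Nat.cast_sub hT0, Nat.cast_sub (show 1 ≤ t by omega)] at h5
      exact h5
    have hMr : (1 : ℝ) ≤ M := by exact_mod_cast hT0
    rw [hS'r] at hκr hScardr hS'Sr
    have hSpos : (0 : ℝ) < S.card := by nlinarith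
    -- the edges per vertex
    have h6 : t * (E G S : ℝ) / S.card ≤ E G S' / M + 2 * t * C₁ := by
      rw [div_le_iff₀ hSpos]
      have h7 : (E G S' : ℝ) * t ≤ E G S' / M * S.card := by
        rw [div_mul_eq_mul_div, le_div_iff₀ (by linarith)]
        rw [mul_assoc]
        apply mul_le_mul_of_nonneg_left hS'Sr (by positivity)
      nlinarith
    have h8 : t * ((M - 1) * (t - 1)) + (E G S' : ℝ) / M ≤ 2 * τ := by
      have h9 : (M : ℝ) * (t * ((M - 1) * (t - 1)) + (E G S' : ℝ) / M) ≤ M * (2 * τ) := by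
        refine le_trans (le_of_eq ?_) hκr
        field_simp
      exact le_of_mul_le_mul_left h9 (by linarith)
    have h10 : (t - 1) * (S.card : ℝ) ≤ (t - 1) * (t * M + C₁) :=
      mul_le_mul_of_nonneg_left hScardr (by linarith)
    nlinarith

end

theorem amgm (x y : ℝ) : 4 * (x * y) ≤ (x + y) ^ 2 := by nlinarith [sq_nonneg (x - y)]

theorem aux1 (t : ℝ) (h : 2 ≤ t) : 2 ≤ t * (t - 1) := by nlinarith

theorem aux2 (δ : ℝ) (h0 : 0 < δ) (h1 : δ ≤ 1) : (1 + 2 * δ) ^ 2 ≤ 1 + 8 * δ := by nlinarith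

/-- the upper bound for one graph -/
theorem upper (t : ℕ) (ht : 2 ≤ t) (ε : ℝ) (hε : 0 < ε) : ∃ k₀ : ℕ, ∀ k ≥ k₀,
    ∀ (n : ℕ) (G : SimpleGraph (Fin n)), exIn G (pathGraph (2 * t + 1)) < k →
      (G.edgeSet.ncard : ℝ) ≤ (1 / (2 * t * (t - 1)) + ε) * k ^ 2 := by
  classical
  have ht' : (2 : ℝ) ≤ t := by exact_mod_cast ht
  have ht1 : (0 : ℝ) < t - 1 := by linarith
  -- the parameters
  obtain ⟨δ, hδ0, hδ1, hδε⟩ : ∃ δ : ℝ, 0 < δ ∧ δ ≤ 1 ∧ 2 * δ ≤ ε / 2 :=
    ⟨min 1 (ε / 4), by positivity, min_le_left _ _, by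
      have := min_le_right (1 : ℝ) (ε / 4)
      linarith⟩
  obtain ⟨η, hη⟩ : ∃ η : ℝ, η = δ / (2 * (t - 1)) := ⟨_, rfl⟩
  have hη0 : 0 < η := by rw [hη]; positivity
  have hηδ : 2 * (t - 1) * η = δ := by
    rw [hη]
    field_simp
  obtain ⟨γ, hγ0, hγ1, hγε⟩ : ∃ γ : ℝ, 0 < γ ∧ γ ≤ 1 ∧ 2 * γ ≤ ε / 2 :=
    ⟨min 1 (ε / 4), by positivity, min_le_left _ _, by
      have := min_le_right (1 : ℝ) (ε / 4)
      linarith⟩
  obtain ⟨q, hq⟩ : ∃ q, q = γ / 4 := ⟨_, rfl⟩
  have hq0 : 0 < q := by rw [hq]; positivity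
  have hq1 : q ≤ 1 := by rw [hq]; linarith
  have hp0 : 0 < q ^ (t - 1) := pow_pos hq0 _
  have hp1 : q ^ (t - 1) ≤ 1 := pow_le_one₀ hq0.le hq1
  obtain ⟨s, hs⟩ := exists_pow_lt_of_lt_one hη0 (show 1 - q ^ (t - 1) < 1 by linarith)
  obtain ⟨Ch, hCh⟩ : ∃ C : ℝ, C = ((t - 1 : ℕ) : ℝ) * (s * (s + 1)) := ⟨_, rfl⟩
  have hCh0 : 0 ≤ Ch := by rw [hCh]; positivity
  obtain ⟨C₁, hC₁⟩ : ∃ C : ℝ, C = t * (t + 1) ^ t + t * (s * (t - 1)) := ⟨_, rfl⟩
  obtain ⟨C₃, hC₃⟩ : ∃ C : ℝ, C = (t - 1) * Ch + ((t - 1) * (C₁ + t) + 2 * t * C₁) / 2 := ⟨_, rfl⟩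
  obtain ⟨k₁, hk₁⟩ := exists_nat_gt (2 * (s * t) / γ)
  obtain ⟨k₂, hk₂⟩ := exists_nat_gt (C₃ / δ)
  refine ⟨max (max k₁ k₂) 1, fun k hk n G hG => ?_⟩
  have hk1 : k₁ ≤ k := (le_max_left _ _).trans ((le_max_left _ _).trans hk)
  have hk2 : k₂ ≤ k := (le_max_right _ _).trans ((le_max_left _ _).trans hk)
  have hk0 : 1 ≤ k := (le_max_right _ _).trans hk
  have hk1' : 2 * (s * t) / γ < k := hk₁.trans_le (by exact_mod_cast hk1)
  have hk2' : C₃ / δ < k := hk₂.trans_le (by exact_mod_cast hk2)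
  have hkr : (1 : ℝ) ≤ k := by exact_mod_cast hk0
  -- few vertices
  have hsupp := supp_le G (2 * t + 1) (by omega)
  have hsupp' : ((supp G).card : ℝ) ≤ 2 * k := by
    have : (supp G).card ≤ 2 * k := by omega
    exact_mod_cast this
  obtain ⟨W, hW⟩ : ∃ W, W = big G (γ * k) := ⟨_, rfl⟩
  have hWk : (W.card : ℝ) ≤ 2 * k := by
    refine le_trans ?_ hsupp'
    rw [hW]
    exact_mod_cast card_le_card (filter_subset _ _)
  obtain ⟨S, hSW, hpt, hdeg⟩ := exists_dense G t ht W
  -- the hub system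
  obtain ⟨hsys, hA⟩ := exists_sys G q hq0.le hq1 (supp G) (t - 1) s (W \ S) ∅ (by
    intro v hv
    rw [filter_supp]
    have h0 := (Finset.mem_sdiff.1 hv).1
    rw [hW] at h0
    have h1 := (mem_filter.1 h0).2
    refine le_trans ?_ h1
    have h2 : q * (supp G).card ≤ γ / 4 * (2 * k) := by
      rw [hq]
      exact mul_le_mul_of_nonneg_left hsupp' (by positivity)
    have h3 : 2 * ((s : ℝ) * t) ≤ γ * k := by
      rw [div_lt_iff₀ hγ0] at hk1'
      linarith
    have h4 : (s : ℝ) * ((t - 1 : ℕ) : ℝ) ≤ s * t := by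
      apply mul_le_mul_of_nonneg_left _ (by positivity)
      exact_mod_cast Nat.sub_le _ _
    linarith)
  have hmain := main_ineq G t ht W S s hsys hdeg C₁ hC₁
  obtain ⟨w, hw⟩ : ∃ w : ℝ, w = W.card := ⟨_, rfl⟩
  obtain ⟨a, ha⟩ : ∃ a : ℝ, a = S.card := ⟨_, rfl⟩
  obtain ⟨A, hAA⟩ : ∃ A : ℝ, A = hsys.A.card := ⟨_, rfl⟩
  obtain ⟨e, he⟩ : ∃ e : ℝ, e = E G S := ⟨_, rfl⟩
  obtain ⟨eW, heW⟩ : ∃ eW : ℝ, eW = E G W := ⟨_, rfl⟩
  have hw0 : 0 ≤ w := by rw [hw]; positivity
  have ha0 : 0 ≤ a := by rw [ha]; positivity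
  have hwa : ((W \ S).card : ℝ) = w - a := by
    rw [hw, ha, card_sdiff_of_subset hSW, Nat.cast_sub (card_le_card hSW)]
  have haw : a ≤ w := by
    rw [hw, ha]
    exact_mod_cast card_le_card hSW
  rw [← hAA, ← ha, ← he] at hmain
  rw [← hAA, hwa, ← hCh] at hA
  rw [← hw] at hWk
  unfold pt at hpt
  rw [← ha, ← he, ← hw, ← heW] at hpt
  have hexk : (exIn G (pathGraph (2 * t + 1)) : ℝ) ≤ k := by exact_mod_cast hG.le
  have h1 : (w - a) - η * w - Ch ≤ A := by
    have h2 : η * (w - a) ≤ η * w := mul_le_mul_of_nonneg_left (by linarith) hη0.le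
    have h3 : (1 - η) * (w - a) ≤ (1 - (1 - q ^ (t - 1)) ^ s) * (w - a) :=
      mul_le_mul_of_nonneg_right (by linarith) (by linarith)
    linarith
  have h2 : t * e / (2 * a) = t * e / a / 2 := by
    rw [mul_comm 2 a, ← div_div]
  have h2W : t * eW / (2 * w) = t * eW / w / 2 := by
    rw [mul_comm 2 w, ← div_div]
  rw [h2, h2W] at hpt
  have h3 : (t - 1) * ((w - a) - η * w - Ch) ≤ (t - 1) * A :=
    mul_le_mul_of_nonneg_left h1 ht1.le
  have h4 : (t - 1) * w / 2 + t * eW / w / 2 ≤ k + (t - 1) * η * w + C₃ := by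
    rw [hC₃]
    linarith
  have h5 : (t - 1) * η * w ≤ δ * k := by
    have h6 : (t - 1) * η * w ≤ (t - 1) * η * (2 * k) :=
      mul_le_mul_of_nonneg_left hWk (by positivity)
    rw [← hηδ]
    linarith
  have h6 : C₃ ≤ δ * k := by
    rw [div_lt_iff₀ hδ0] at hk2'
    linarith
  have h7 : (t - 1) * w / 2 + t * eW / w / 2 ≤ (1 + 2 * δ) * k := by linarith
  have heW0 : 0 ≤ eW := by rw [heW]; positivity
  have h8 : t * (t - 1) * eW ≤ ((1 + 2 * δ) * k) ^ 2 := by
    rcases hw0.eq_or_lt with h9 | h9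
    · have h10 : eW = 0 := by
        have h11 : W.card = 0 := by
          rw [← h9] at hw
          exact_mod_cast hw.symm
        rw [card_eq_zero] at h11
        rw [heW, h11]
        simp [E]
      rw [h10, mul_zero]
      positivity
    · have h10 : t * (t - 1) * eW ≤ ((t - 1) * w / 2 + t * eW / w / 2) ^ 2 := by
        have h11 : t * (t - 1) * eW = 4 * (((t - 1) * w / 2) * (t * eW / w / 2)) := by
          field_simp
          ring
        rw [h11]
        exact amgm _ _
      refine h10.trans (pow_le_pow_left₀ ?_ h7 2)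
      have : 0 ≤ (t - 1) * w / 2 := by positivity
      have : 0 ≤ t * eW / w / 2 := by positivity
      linarith
  -- the number of edges
  have hed := edges_le' G (γ * k) (by positivity)
  rw [← hW, ← heW] at hed
  have h9 : (supp G).card * (γ * k) ≤ 2 * γ * k ^ 2 := by
    calc (supp G).card * (γ * k) ≤ (2 * k) * (γ * k) :=
          mul_le_mul_of_nonneg_right hsupp' (by positivity)
      _ = 2 * γ * k ^ 2 := by ring
  have hk2pos : (0 : ℝ) ≤ (k : ℝ) ^ 2 := sq_nonneg _
  have htt : (2 : ℝ) ≤ t * (t - 1) := aux1 _ ht'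
  have h10 : eW ≤ (1 + 8 * δ) * k ^ 2 / (t * (t - 1)) := by
    rw [le_div_iff₀ (by linarith)]
    have h11 : ((1 + 2 * δ) * (k : ℝ)) ^ 2 ≤ (1 + 8 * δ) * k ^ 2 := by
      rw [mul_pow]
      exact mul_le_mul_of_nonneg_right (aux2 δ hδ0 hδ1) hk2pos
    linarith
  have h11 : (1 + 8 * δ) * (k : ℝ) ^ 2 / (t * (t - 1)) ≤ k ^ 2 / (t * (t - 1)) + 4 * δ * k ^ 2 := by
    have h12 : 8 * δ * (k : ℝ) ^ 2 / (t * (t - 1)) ≤ 4 * δ * k ^ 2 := by
      rw [div_le_iff₀ (by linarith)]
      have h13 : 0 ≤ 4 * δ * (k : ℝ) ^ 2 := by positivity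
      have h15 := mul_le_mul_of_nonneg_left htt h13
      linarith
    have h14 : (1 + 8 * δ) * (k : ℝ) ^ 2 / (t * (t - 1)) =
        k ^ 2 / (t * (t - 1)) + 8 * δ * (k : ℝ) ^ 2 / (t * (t - 1)) := by ring
    linarith
  have h12 : (1 / (2 * (t : ℝ) * (t - 1)) + ε) * k ^ 2 = k ^ 2 / (t * (t - 1)) / 2 + ε * k ^ 2 := by
    field_simp
  rw [h12]
  have h13 : 2 * δ * (k : ℝ) ^ 2 ≤ ε / 2 * k ^ 2 := mul_le_mul_of_nonneg_right (by linarith) hk2pos
  have h14 : 2 * γ * (k : ℝ) ^ 2 ≤ ε / 2 * k ^ 2 := mul_le_mul_of_nonneg_right (by linarith) hk2pos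
  linarith

/-- the lower bound -/
theorem lower (t k : ℕ) (ht : 2 ≤ t) (hk : 1 ≤ k) :
    (turanGraph ((k - 1) / (t - 1)) t).edgeSet.ncard ≤ invEx k (pathGraph (2 * t + 1)) := by
  classical
  refine le_invEx (by omega) ⟨(k - 1) / (t - 1), turanGraph _ t, ?_, rfl⟩
  obtain ⟨n, hn⟩ : ∃ n, n = (k - 1) / (t - 1) := ⟨_, rfl⟩
  rw [← hn]
  have h1 : exIn (turanGraph n t) (pathGraph (2 * t + 1)) ≤ (t - 1) * n := by
    refine exIn_le fun H hHT hH => ?_
    have h2 := E_le H (2 * t) (2 * (t - 1)) (by omega) (fun d hd => by omega)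
      (fun S m f hf => path_bound hH S m f hf) (fun C hC => by
        -- at most `2t` vertices
        obtain ⟨N, hN⟩ : ∃ N : ℕ → ℕ, N = fun r => (C.filter fun y : Fin n => (y : ℕ) % t = r).card :=
          ⟨_, rfl⟩
        have h3 : ∀ v ∈ C, (nb H C v).card + N ((v : ℕ) % t) ≤ C.card := by
          intro v _
          rw [hN]
          simp only
          rw [← card_union_of_disjoint]
          · apply card_le_card
            exact union_subset (filter_subset _ _) (filter_subset _ _)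
          · rw [Finset.disjoint_left]
            intro y hy hy'
            simp only [nb, mem_filter] at hy hy'
            have := hHT hy.2
            rw [turanGraph_adj] at this
            exact this hy'.2.symm
        have h4 : ∑ v ∈ C, N ((v : ℕ) % t) = ∑ r ∈ range t, N r ^ 2 := by
          rw [← Finset.sum_fiberwise_of_maps_to (g := fun v : Fin n => (v : ℕ) % t)
            (t := range t)]
          · refine Finset.sum_congr rfl fun r _ => ?_
            rw [Finset.sum_congr rfl fun v hv => by rw [(mem_filter.1 hv).2], sum_const, smul_eq_mul,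
              sq]
            rw [hN]
          · intro v _
            exact mem_range.2 (Nat.mod_lt _ (by omega))
        have h5 : ∑ r ∈ range t, N r = C.card := by
          rw [hN]
          symm
          apply card_eq_sum_card_fiberwise
          intro v _
          exact Finset.mem_coe.2 (mem_range.2 (Nat.mod_lt _ (by omega)))
        have h6 : (∑ r ∈ range t, N r) ^ 2 ≤ (range t).card * ∑ r ∈ range t, N r ^ 2 :=
          sq_sum_le_card_mul_sum_sq
        rw [h5, card_range] at h6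
        have h7 : E H C + ∑ r ∈ range t, N r ^ 2 ≤ C.card * C.card := by
          rw [← h4]
          unfold E
          rw [← sum_add_distrib, ← smul_eq_mul]
          exact sum_le_card_nsmul _ _ _ h3
        obtain ⟨u, hu⟩ : ∃ u, t = u + 1 := ⟨t - 1, by omega⟩
        have h8 : t * E H C ≤ t * (2 * (t - 1) * C.card) := by
          have h9 : t * E H C + C.card ^ 2 ≤ t * (C.card * C.card) := by
            calc t * E H C + C.card ^ 2 ≤ t * E H C + t * ∑ r ∈ range t, N r ^ 2 :=
                  Nat.add_le_add_left h6 _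
              _ = t * (E H C + ∑ r ∈ range t, N r ^ 2) := by ring
              _ ≤ t * (C.card * C.card) := Nat.mul_le_mul_left t h7
          have hC' : C.card ≤ 2 * (u + 1) := by omega
          have h10 := Nat.mul_le_mul_left (u * C.card) hC'
          rw [hu] at h9
          rw [hu, Nat.add_sub_cancel]
          have h11 : (u + 1) * (2 * u * C.card) = u * C.card * (2 * (u + 1)) := by ring
          rw [h11]
          refine le_trans ?_ h10
          have h12 : (u + 1) * (C.card * C.card) = u * C.card * C.card + C.card ^ 2 := by ring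
          omega
        exact Nat.le_of_mul_le_mul_left h8 (by omega)) univ
    rw [E_univ, card_univ, Fintype.card_fin] at h2
    have h3 : 2 * (t - 1) * n = 2 * ((t - 1) * n) := by ring
    omega
  have h2 : (t - 1) * n ≤ k - 1 := by
    rw [hn]
    exact Nat.mul_div_le _ _
  omega

theorem turan_edges (n t : ℕ) (ht : 1 ≤ t) :
    ((n : ℝ) ^ 2 - t ^ 2) * (t - 1) / (2 * t) - 1 ≤ (turanGraph n t).edgeSet.ncard := by
  classical
  have h1 : (turanGraph n t).edgeSet.ncard = #(turanGraph n t).edgeFinset := by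
    rw [← coe_edgeFinset, Set.ncard_coe_finset]
  have ht' : (1 : ℝ) ≤ t := by exact_mod_cast ht
  obtain ⟨m, hm⟩ : ∃ m, m = (n ^ 2 - (n % t) ^ 2) * (t - 1) := ⟨_, rfl⟩
  have h2 : m / (2 * t) ≤ (turanGraph n t).edgeSet.ncard := by
    rw [h1, card_edgeFinset_turanGraph, hm]
    exact Nat.le_add_right _ _
  have h3 : m < 2 * t * (m / (2 * t) + 1) := Nat.lt_mul_div_succ m (by omega)
  have h3' : (m : ℝ) / (2 * t) ≤ (m / (2 * t) : ℕ) + 1 := by
    rw [div_le_iff₀ (by positivity)]
    have h4 : (m : ℝ) < ((2 * t * (m / (2 * t) + 1) : ℕ) : ℝ) := by exact_mod_cast h3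
    push_cast at h4
    linarith
  have h4 : ((m / (2 * t) : ℕ) : ℝ) ≤ (turanGraph n t).edgeSet.ncard := by exact_mod_cast h2
  have h5 : ((n : ℝ) ^ 2 - t ^ 2) * (t - 1) ≤ m := by
    have hle : (n % t) ^ 2 ≤ n ^ 2 := Nat.pow_le_pow_left (Nat.mod_le _ _) 2
    have hlt : ((n % t : ℕ) : ℝ) ≤ t := by exact_mod_cast (Nat.mod_lt n (by omega)).le
    rw [hm, Nat.cast_mul, Nat.cast_sub hle, Nat.cast_sub ht]
    push_cast
    apply mul_le_mul_of_nonneg_right _ (by linarith)
    have h6 : ((n % t : ℕ) : ℝ) ^ 2 ≤ (t : ℝ) ^ 2 := pow_le_pow_left₀ (by positivity) hlt 2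
    linarith
  have h6 : ((n : ℝ) ^ 2 - t ^ 2) * (t - 1) / (2 * t) ≤ m / (2 * t) :=
    div_le_div_of_nonneg_right h5 (by positivity)
  linarith

/-- For every `t ≥ 2`, with `P_{2t}` the path with `2t` edges (`2t+1` vertices): the numbers of edges
of the graphs `G` with `ex(G,P_{2t}) < k` are bounded for every `k`, and their supremum is
`k² / (2t(t-1)) + o(k²)` as `k → ∞`. -/
theorem result : ∀ t : ℕ, 2 ≤ t →
    (∀ k, BddAbove (sizes k (pathGraph (2 * t + 1)))) ∧
    (fun k : ℕ => (invEx k (pathGraph (2 * t + 1)) : ℝ) - (k : ℝ) ^ 2 / (2 * t * (t - 1)))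
      =o[atTop] fun k : ℕ => (k : ℝ) ^ 2 := by
  intro t ht
  refine ⟨fun k => sizes_bdd k _ (by omega), ?_⟩
  have ht' : (2 : ℝ) ≤ t := by exact_mod_cast ht
  have ht1 : (1 : ℝ) ≤ t - 1 := by linarith
  rw [isLittleO_iff]
  intro c hc
  obtain ⟨k₀, hk₀⟩ := upper t ht c hc
  -- the error of the lower bound
  obtain ⟨k₁, hk₁⟩ := exists_nat_gt ((2 * t + t ^ 2 + 1) / c)
  filter_upwards [eventually_ge_atTop (max (max k₀ k₁) 1)] with k hk
  have hk0 : k₀ ≤ k := (le_max_left _ _).trans ((le_max_left _ _).trans hk)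
  have hk1 : k₁ ≤ k := (le_max_right _ _).trans ((le_max_left _ _).trans hk)
  have hk2 : 1 ≤ k := (le_max_right _ _).trans hk
  have hkr : (1 : ℝ) ≤ k := by exact_mod_cast hk2
  have hkc : 2 * t + t ^ 2 + 1 ≤ c * k := by
    have h1 : (2 * t + t ^ 2 + 1) / c < k := hk₁.trans_le (by exact_mod_cast hk1)
    rw [div_lt_iff₀ hc] at h1
    linarith
  have hup := invEx_le (l := 2 * t + 1) (by omega) (by
    have : 0 < (t : ℝ) - 1 := by linarith
    positivity) (hk₀ k hk0)
  have hlow : (((turanGraph ((k - 1) / (t - 1)) t).edgeSet.ncard : ℕ) : ℝ) ≤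
      invEx k (pathGraph (2 * t + 1)) := by
    exact_mod_cast lower t k ht hk2
  obtain ⟨n, hn⟩ : ∃ n, n = (k - 1) / (t - 1) := ⟨_, rfl⟩
  rw [← hn] at hlow
  have hT := turan_edges n t (by omega)
  rw [Real.norm_eq_abs, Real.norm_eq_abs, abs_of_nonneg (sq_nonneg (k : ℝ)), abs_le]
  constructor
  · -- lower
    have h1 : (k : ℝ) ≤ (t - 1) * (n + 1) := by
      have h2 : k - 1 < (t - 1) * (n + 1) := by
        rw [hn]
        exact Nat.lt_mul_div_succ _ (by omega)
      have h3 : k ≤ (t - 1) * (n + 1) := by omega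
      have h4 : (k : ℝ) ≤ (((t - 1) * (n + 1) : ℕ) : ℝ) := by exact_mod_cast h3
      rw [Nat.cast_mul, Nat.cast_sub (by omega)] at h4
      push_cast at h4
      exact h4
    have hnk : (n : ℝ) ≤ k := by
      have h2 : n ≤ k := by
        rw [hn]
        exact (Nat.div_le_self _ _).trans (Nat.sub_le _ _)
      exact_mod_cast h2
    have h2 : (k : ℝ) ^ 2 / (2 * t * (t - 1)) ≤ (t - 1) * (n + 1) ^ 2 / (2 * t) := by
      rw [div_le_div_iff₀ (mul_pos (by linarith) (by linarith)) (by linarith)]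
      have h3 : (k : ℝ) ^ 2 ≤ ((t - 1) * (n + 1)) ^ 2 := pow_le_pow_left₀ (by linarith) h1 2
      have h4 := mul_le_mul_of_nonneg_right h3 (show (0 : ℝ) ≤ 2 * t by linarith)
      refine h4.trans (le_of_eq ?_)
      ring
    have h3 : (t - 1) * ((n : ℝ) + 1) ^ 2 / (2 * t) - ((n : ℝ) ^ 2 - t ^ 2) * (t - 1) / (2 * t) ≤
        2 * t * k + t ^ 2 := by
      have h4 : (t - 1) * ((n : ℝ) + 1) ^ 2 / (2 * t) - ((n : ℝ) ^ 2 - t ^ 2) * (t - 1) / (2 * t) =
          (t - 1) * (2 * n + 1 + t ^ 2) / (2 * t) := by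
        field_simp
        ring
      rw [h4, div_le_iff₀ (by linarith)]
      have h5 : (t - 1) * (2 * (n : ℝ) + 1 + t ^ 2) ≤ t * (2 * n + 1 + t ^ 2) :=
        mul_le_mul_of_nonneg_right (by linarith) (by positivity)
      have h6 : 2 * (n : ℝ) + 1 + t ^ 2 ≤ 2 * (2 * t * k + t ^ 2) := by
        have h7 : (k : ℝ) ≤ t * k := le_mul_of_one_le_left (by linarith) (by linarith)
        linarith [sq_nonneg (t : ℝ)]
      have h7 := mul_le_mul_of_nonneg_left h6 (show (0 : ℝ) ≤ t by linarith)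
      linarith
    have h4 : 2 * t * k + t ^ 2 + 1 ≤ c * (k : ℝ) ^ 2 := by
      have h5 : (2 * t + t ^ 2 + 1) * (k : ℝ) ≤ c * k * k := mul_le_mul_of_nonneg_right hkc (by linarith)
      have h6 : (t : ℝ) ^ 2 ≤ t ^ 2 * k := le_mul_of_one_le_right (sq_nonneg _) hkr
      linarith
    linarith
  · -- upper
    have h1 : (1 / (2 * (t : ℝ) * (t - 1)) + c) * k ^ 2 = (k : ℝ) ^ 2 / (2 * t * (t - 1)) +
        c * k ^ 2 := by ring
    rw [h1] at hup
    linarith

end Pool.Agent.Results.MP_69c6fe_co.EvenPaths
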